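import Pool.Agent.W_1b8d5d_nc.CoreOf
import Pool.Agent.W_1b8d5d_nd.Core

/-!
MP_1b8d5d_pr: first-passage percolation on `ℤ^d`, `d ≥ 2`, with i.i.d. nonnegative weights of any atomless law. The
unit ball of the time constant has uncountably many points of curvature near each extreme point, its extreme points are
not isolated and form an uncountable set, it is not a polytope, and at each boundary point its supporting forms all vanish
on one common nonzero vector; it is differentiable at the directions of the axes and of the diagonals, and at all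
directions if `d = 2`.
-/

set_option autoImplicit false

open MeasureTheory ProbabilityTheory Filter Topology

namespace Pool.Agent.Results.MP_1b8d5d_pr.LimitShapeCurvature

theorem result :
    ∀ (d : ℕ), 2 ≤ d →
    ∀ (ν : Measure ℝ), IsProbabilityMeasure ν → ν (Set.Iio 0) = 0 →
      (∀ a : ℝ, ν ({a} : Set ℝ) = 0) →
    ∀ (Ω : Type) [MeasurableSpace Ω] (P : Measure Ω), IsProbabilityMeasure P →
    ∀ (τ : (Fin d → ℤ) × Fin d → Ω → ℝ),
      (∀ e, Measurable (τ e)) → iIndepFun τ P → (∀ e, P.map (τ e) = ν) →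
    ∀ (μ : (Fin d → ℝ) → ℝ), Continuous μ →
      (∀ (c : ℝ) (x : Fin d → ℝ), 0 ≤ c → μ (c • x) = c * μ x) →
      (∀ x : Fin d → ℤ, TendstoInMeasure P
         (fun (n : ℕ) (ω : Ω) =>
            sInf {t : ℝ | ∃ (m : ℕ) (p : ℕ → Fin d → ℤ), p 0 = 0 ∧ p m = (n : ℤ) • x ∧
              (∀ k < m, ∑ i, |p (k+1) i - p k i| = 1) ∧
              t = ∑ k ∈ Finset.range m, ∑ i : Fin d,
                ((if p (k+1) = p k + (Pi.single i (1 : ℤ) : Fin d → ℤ) then τ (p k, i) ω else 0) +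
                 (if p k = p (k+1) + (Pi.single i (1 : ℤ) : Fin d → ℤ) then τ (p (k+1), i) ω else 0))}
            / (n : ℝ))
         atTop (fun _ => μ (fun i => (x i : ℝ)))) →
      (∀ z ∈ {x | μ x ≤ 1}.extremePoints ℝ, ∀ U ∈ 𝓝 z,
        ¬ {y : Fin d → ℝ | y ∈ U ∧ μ y ≤ 1 ∧ ∃ (c : Fin d → ℝ) (r : ℝ),
          ∑ i, (y i - c i) ^ 2 = r ∧ ∀ x, μ x ≤ 1 → ∑ i, (x i - c i) ^ 2 ≤ r}.Countable) ∧
      (Preperfect ({x | μ x ≤ 1}.extremePoints ℝ) ∧ ¬ ({x | μ x ≤ 1}.extremePoints ℝ).Countable) ∧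
      (∀ s : Set (Fin d → ℝ), s.Finite → {x | μ x ≤ 1} ≠ convexHull ℝ s) ∧
      (∀ x : Fin d → ℝ, x ≠ 0 → ∃ y : Fin d → ℝ, y ≠ 0 ∧ ∀ f : (Fin d → ℝ) →ₗ[ℝ] ℝ,
        (∀ z, f z ≤ μ z) → f x = μ x → f y = 0) ∧
      ((∀ i : Fin d, DifferentiableAt ℝ μ (Pi.single i 1)) ∧
        ∀ ε : Fin d → ℤ, (∀ i, ε i = 1 ∨ ε i = -1) → DifferentiableAt ℝ μ (fun i => (ε i : ℝ))) ∧
      (d = 2 → Perfect ({x | μ x ≤ 1}.extremePoints ℝ) ∧
        (∀ x : Fin d → ℝ, x ≠ 0 → ∀ f f' : (Fin d → ℝ) →ₗ[ℝ] ℝ,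
          (∀ z, f z ≤ μ z) → (∀ z, f' z ≤ μ z) → f x = μ x → f' x = μ x → f = f') ∧
        ∀ x : Fin d → ℝ, x ≠ 0 → DifferentiableAt ℝ μ x) :=
  Pool.Agent.W_1b8d5d_nc.finalD (Pool.Agent.W_1b8d5d_nc.coreD_of
    fun _ _ hd _ _ _ _ _ hX hm hQ => Pool.Agent.W_1b8d5d_nd.no_vtx hd hQ hm hX)

end Pool.Agent.Results.MP_1b8d5d_pr.LimitShapeCurvature
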