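import Mathlib
import Pool.Agent.W_1b8d5d_nc.FinR35

/-!
MP_1b8d5d_pr: planar first-passage percolation with i.i.d. weights whose law lives on `[a, b]`, `0 < a`, has no atoms, charges every
neighbourhood of `a` and satisfies a condition of regularity near `a`. The boundary of the limit shape is uniformly curved with a
power `K` in place of `2`, in every direction, it is of class `C^(1, α)`, its normal map is a bi-Hoelder homeomorphism, and the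
curvature is doubling: the depth of the chords at a point is multiplied at most by a constant when the distance is doubled.
-/

set_option autoImplicit false

open MeasureTheory ProbabilityTheory Filter Topology

namespace Pool.Agent.Results.MP_1b8d5d_pr.RegularBoundary

theorem result :
    ∀ (a b θ C : ℝ), 0 < a → 0 < θ →
    ∀ (ν : Measure ℝ), IsProbabilityMeasure ν → ν (Set.Icc a b)ᶜ = 0 → (∀ x : ℝ, ν ({x} : Set ℝ) = 0) →
      (∀ t : ℝ, a < t → 0 < ν (Set.Iic t)) →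
      (∀ t t' : ℝ, a < t → t ≤ t' → t' ≤ b → ν.real (Set.Iic t') ≤ (1 + θ) * ν.real (Set.Iic t) →
        (t' - t) * ν.real (Set.Iic t) ≤ C * ∫ s in a..t, ν.real (Set.Iic s)) →
    ∀ (Ω : Type) [MeasurableSpace Ω] (P : Measure Ω), IsProbabilityMeasure P →
    ∀ (τ : (Fin 2 → ℤ) × Fin 2 → Ω → ℝ),
      (∀ e, Measurable (τ e)) → iIndepFun τ P → (∀ e, P.map (τ e) = ν) →
    ∀ (μ : (Fin 2 → ℝ) → ℝ), Continuous μ →
      (∀ (c : ℝ) (x : Fin 2 → ℝ), 0 ≤ c → μ (c • x) = c * μ x) →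
      (∀ x : Fin 2 → ℤ, TendstoInMeasure P
        (fun (n : ℕ) (ω : Ω) =>
            sInf {t : ℝ | ∃ (m : ℕ) (p : ℕ → Fin 2 → ℤ), p 0 = 0 ∧ p m = (n : ℤ) • x ∧
              (∀ k < m, ∑ i, |p (k+1) i - p k i| = 1) ∧
              t = ∑ k ∈ Finset.range m, ∑ i : Fin 2,
                ((if p (k+1) = p k + (Pi.single i (1 : ℤ) : Fin 2 → ℤ) then τ (p k, i) ω else 0) +
                 (if p k = p (k+1) + (Pi.single i (1 : ℤ) : Fin 2 → ℤ) then τ (p (k+1), i) ω else 0))}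
            / (n : ℝ))
        atTop (fun _ => μ (fun i => (x i : ℝ)))) →
      ∃ ε > 0, ∃ K > 0, ∃ α > 0, ∃ M > 0,
        (∀ x y : Fin 2 → ℝ, μ x = 1 → μ y = 1 →
          ε * ‖x - y‖ ^ (K : ℝ) ≤ μ x + μ y - μ (x + y) ∧ μ x + μ y - μ (x + y) ≤ M * ‖x - y‖ ^ (1 + α : ℝ)) ∧
        (∀ x y : Fin 2 → ℝ, μ x = 1 → μ y = 1 →
          ∀ z : Fin 2 → ℝ, ‖z‖ ≤ ε * ‖x - y‖ ^ (K : ℝ) → μ (midpoint ℝ x y + z) ≤ 1) ∧
        (∀ x y y' : Fin 2 → ℝ, μ x = 1 → μ y = 1 → μ y' = 1 → ‖x - y'‖ ≤ 2 * ‖x - y‖ →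
          μ x + μ y' - μ (x + y') ≤ M * (μ x + μ y - μ (x + y))) ∧
        (∀ x : Fin 2 → ℝ, x ≠ 0 → DifferentiableAt ℝ μ x) ∧
        (∀ x y : Fin 2 → ℝ, μ x = 1 → μ y = 1 →
          ε * ‖x - y‖ ^ (K : ℝ) ≤ ‖fderiv ℝ μ x - fderiv ℝ μ y‖ ∧
          ‖fderiv ℝ μ x - fderiv ℝ μ y‖ ≤ M * ‖x - y‖ ^ (α : ℝ)) :=
  Pool.Agent.W_1b8d5d_nc.finR35 Pool.Agent.W_1b8d5d_nc.coreDblN35

end Pool.Agent.Results.MP_1b8d5d_pr.RegularBoundary
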