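import Mathlib
import Pool.Agent.W_1b8d5d_sc.FinS
import Pool.Agent.W_1b8d5d_sc.ScCore

/-!
MP_1b8d5d_pr: planar first-passage percolation with i.i.d. weights of an atomless law on `[a, b]`, `0 < a`. The limit shape is
strictly convex: the time constant satisfies the strict triangle inequality, every boundary point is extreme and a limit of
uncountably many points of curvature.
-/

set_option autoImplicit false

open MeasureTheory ProbabilityTheory Filter Topology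

namespace Pool.Agent.Results.MP_1b8d5d_pr.StrictConvexity

theorem result :
    ∀ (a b : ℝ), 0 < a →
    ∀ (ν : Measure ℝ), IsProbabilityMeasure ν → ν (Set.Icc a b)ᶜ = 0 →
      (∀ x : ℝ, ν ({x} : Set ℝ) = 0) →
    ∀ (Ω : Type) [MeasurableSpace Ω] (P : Measure Ω), IsProbabilityMeasure P →
    ∀ (τ : (Fin 2 → ℤ) × Fin 2 → Ω → ℝ),
      (∀ e, Measurable (τ e)) → iIndepFun τ P → (∀ e, P.map (τ e) = ν) →
    ∀ (μ : (Fin 2 → ℝ) → ℝ), Continuous μ →
      (∀ (c : ℝ) (x : Fin 2 → ℝ), 0 ≤ c → μ (c • x) = c * μ x) →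
      (∀ x : Fin 2 → ℤ, TendstoInMeasure P
        (fun (n : ℕ) (ω : Ω) =>
            sInf {t : ℝ | ∃ (m : ℕ) (p : ℕ → Fin 2 → ℤ), p 0 = 0 ∧ p m = (n : ℤ) • x ∧
              (∀ k < m, ∑ i, |p (k+1) i - p k i| = 1) ∧
              t = ∑ k ∈ Finset.range m, ∑ i : Fin 2,
                ((if p (k+1) = p k + (Pi.single i (1 : ℤ) : Fin 2 → ℤ) then τ (p k, i) ω else 0) +
                 (if p k = p (k+1) + (Pi.single i (1 : ℤ) : Fin 2 → ℤ) then τ (p (k+1), i) ω else 0))}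
            / (n : ℝ))
        atTop (fun _ => μ (fun i => (x i : ℝ)))) →
      StrictConvex ℝ {x | μ x ≤ 1} ∧
      (∀ x y : Fin 2 → ℝ, ¬ SameRay ℝ x y → μ (x + y) < μ x + μ y) ∧
      {x | μ x ≤ 1}.extremePoints ℝ = {x | μ x = 1} ∧
      (∀ z : Fin 2 → ℝ, μ z = 1 → ∀ U ∈ 𝓝 z,
        ¬ {y : Fin 2 → ℝ | y ∈ U ∧ μ y ≤ 1 ∧ ∃ (c : Fin 2 → ℝ) (r : ℝ),
          ∑ i, (y i - c i) ^ 2 = r ∧ ∀ x, μ x ≤ 1 → ∑ i, (x i - c i) ^ 2 ≤ r}.Countable) :=
  Pool.Agent.W_1b8d5d_sc.finalS fun _ _ hg hM _ hf => Pool.Agent.W_1b8d5d_sc.sc_core hg hM hf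

end Pool.Agent.Results.MP_1b8d5d_pr.StrictConvexity
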