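import Mathlib
import Pool.Agent.W_1b8d5d_nc.FinR35

/-!
MP_1b8d5d_pr: planar first-passage percolation with i.i.d. weights whose law lives on `[a, b]`, `0 < a`, has no atoms, charges every
neighbourhood of `a` and satisfies a condition of regularity near `a`. For almost every linear form the limit shape is curved with the
exponent two, exactly as in the problem, at the point where the form is maximal; and the points of the boundary at which the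
curvature is exactly of the order two, from below and from above, are dense.
-/

set_option autoImplicit false

open MeasureTheory ProbabilityTheory Filter Topology

namespace Pool.Agent.Results.MP_1b8d5d_pr.TypicalCurvature

theorem result :
    ∀ (a b θ C : ℝ), 0 < a → 0 < θ →
    ∀ (ν : Measure ℝ), IsProbabilityMeasure ν → ν (Set.Icc a b)ᶜ = 0 → (∀ x : ℝ, ν ({x} : Set ℝ) = 0) →
      (∀ t : ℝ, a < t → 0 < ν (Set.Iic t)) →
      (∀ t t' : ℝ, a < t → t ≤ t' → t' ≤ b → ν.real (Set.Iic t') ≤ (1 + θ) * ν.real (Set.Iic t) →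
        (t' - t) * ν.real (Set.Iic t) ≤ C * ∫ s in a..t, ν.real (Set.Iic s)) →
    ∀ (Ω : Type) [MeasurableSpace Ω] (P : Measure Ω), IsProbabilityMeasure P →
    ∀ (τ : (Fin 2 → ℤ) × Fin 2 → Ω → ℝ),
      (∀ e, Measurable (τ e)) → iIndepFun τ P → (∀ e, P.map (τ e) = ν) →
    ∀ (μ : (Fin 2 → ℝ) → ℝ), Continuous μ →
      (∀ (c : ℝ) (x : Fin 2 → ℝ), 0 ≤ c → μ (c • x) = c * μ x) →
      (∀ x : Fin 2 → ℤ, TendstoInMeasure P
        (fun (n : ℕ) (ω : Ω) =>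
            sInf {t : ℝ | ∃ (m : ℕ) (p : ℕ → Fin 2 → ℤ), p 0 = 0 ∧ p m = (n : ℤ) • x ∧
              (∀ k < m, ∑ i, |p (k+1) i - p k i| = 1) ∧
              t = ∑ k ∈ Finset.range m, ∑ i : Fin 2,
                ((if p (k+1) = p k + (Pi.single i (1 : ℤ) : Fin 2 → ℤ) then τ (p k, i) ω else 0) +
                 (if p k = p (k+1) + (Pi.single i (1 : ℤ) : Fin 2 → ℤ) then τ (p (k+1), i) ω else 0))}
            / (n : ℝ))
        atTop (fun _ => μ (fun i => (x i : ℝ)))) →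
      (∀ᵐ f : Fin 2 → ℝ, ∀ x : Fin 2 → ℝ, μ x = 1 →
        (∀ y : Fin 2 → ℝ, μ y ≤ 1 → f 0 * y 0 + f 1 * y 1 ≤ f 0 * x 0 + f 1 * x 1) →
        ∃ ε > 0, ∀ y : Fin 2 → ℝ, μ y = 1 →
          ε * ‖x - y‖ ^ (2 : ℝ) ≤ μ x + μ y - μ (x + y) ∧
          ∀ z : Fin 2 → ℝ, ‖z‖ ≤ ε * ‖x - y‖ ^ (2 : ℝ) → μ (midpoint ℝ x y + z) ≤ 1) ∧
      (∀ x : Fin 2 → ℝ, μ x = 1 → ∀ r > 0, ∃ z : Fin 2 → ℝ, μ z = 1 ∧ ‖z - x‖ < r ∧ ∃ ε > 0, ∃ M > 0,
        ∀ y : Fin 2 → ℝ, μ y = 1 →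
          ε * ‖z - y‖ ^ (2 : ℝ) ≤ μ z + μ y - μ (z + y) ∧ μ z + μ y - μ (z + y) ≤ M * ‖z - y‖ ^ (2 : ℝ)) :=
  Pool.Agent.W_1b8d5d_nc.finT35 Pool.Agent.W_1b8d5d_nc.coreDblN35

end Pool.Agent.Results.MP_1b8d5d_pr.TypicalCurvature
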